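import Pool.Agent.H.MP_cd40e2_lc.C

set_option autoImplicit false

namespace Pool.Agent.H.MP_375aa5_lc

open Finset Pool.Agent.H.MP_cd40e2_lc
open scoped BigOperators

variable {ι : Type} [Fintype ι] [DecidableEq ι]

theorem orth (S T : Finset ι) : 𝔼 x, χ S x * χ T x = if S = T then 1 else 0 := by
  simp only [χ, prod_mem S, prod_mem T, ← prod_mul_distrib]
  rw [ex_prod fun i b => (if i ∈ S then s b else 1) * if i ∈ T then s b else 1]
  split_ifs with e
  · exact prod_eq_one fun i _ => by subst e; split_ifs <;> simp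
  · obtain ⟨i, hi⟩ := not_forall.1 (mt Finset.ext e)
    exact prod_eq_zero (mem_univ i) (by rw [ex_bool]; by_cases a : i ∈ S <;> simp_all [s])

theorem planch (f g : (ι → Bool) → ℝ) : 𝔼 x, f x * g x = ∑ S, co f S * co g S := by
  conv_lhs => enter [2, x, 2]; rw [expand g x]
  simp only [mul_sum, expect_sum_comm, mul_left_comm (f _), ← mul_expect, mul_comm (co f _)]
  rfl

theorem co_sum (a : Finset ι → ℝ) (T) : co (fun x => ∑ S, a S * χ S x) T = a T := by
  simp [co, sum_mul, expect_sum_comm, mul_assoc, ← mul_expect, orth]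

def PJ (J : Finset ι) (d : ℕ) : Submodule ℝ ((ι → Bool) → ℝ) := .span ℝ {g | ∃ S ⊆ J, S.card < d ∧ g = χ S}

omit [Fintype ι] [DecidableEq ι] in
theorem χ_mem {J S : Finset ι} {d} (h : S ⊆ J) (h' : S.card < d) : χ S ∈ PJ J d := Submodule.subset_span ⟨S, h, h', rfl⟩

omit [Fintype ι] [DecidableEq ι] in
@[elab_as_elim] theorem PJ_ind {J : Finset ι} {d} {p : ((ι → Bool) → ℝ) → Prop} {g} (h : g ∈ PJ J d)
    (h0 : p fun _ => 0) (h1 : ∀ a b, p a → p b → p fun x => a x + b x) (h2 : ∀ (c : ℝ) a, p a → p fun x => c * a x)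
    (h3 : ∀ S ⊆ J, S.card < d → p (χ S)) : p g := by
  induction h using Submodule.span_induction with
  | mem _ e => obtain ⟨S, a, b, rfl⟩ := e; exact h3 S a b
  | zero => exact h0
  | add _ _ _ _ a b => exact h1 _ _ a b
  | smul c _ _ a => exact h2 c _ a

omit [Fintype ι] [DecidableEq ι] in
theorem PJ_map {J : Finset ι} {d} {V : Type} {M : Submodule ℝ (V → ℝ)} (Φ : ((ι → Bool) → ℝ) → V → ℝ)
    (h1 : ∀ a b, Φ (fun x => a x + b x) = Φ a + Φ b) (h2 : ∀ (c : ℝ) a, Φ (fun x => c * a x) = c • Φ a)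
    (h3 : ∀ S ⊆ J, S.card < d → Φ (χ S) ∈ M) {g} (h : g ∈ PJ J d) : Φ g ∈ M :=
  PJ_ind h (by have := h2 0 0; simp at this; exact this ▸ M.zero_mem)
    (fun a b x y => h1 a b ▸ M.add_mem x y) (fun c a x => h2 c a ▸ M.smul_mem c x) h3

theorem mem_PJ {J : Finset ι} {d g} : g ∈ PJ J d ↔ ∀ S, ¬ (S ⊆ J ∧ S.card < d) → co g S = 0 := by
  refine ⟨fun h S n => ?_, fun h => ?_⟩
  refine PJ_ind h (by simp [co]) (fun a b x y => ?_) (fun c a x => ?_) fun T a b => ?_
  · simp only [co, add_mul, expect_add_distrib] at *; rw [x, y, add_zero]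
  · simp only [co, mul_assoc, ← mul_expect] at *; rw [x, mul_zero]
  · rw [co, orth, if_neg]; rintro rfl; exact n ⟨a, b⟩
  · rw [show g = ∑ S, co g S • χ S from funext fun x => by simpa using expand g x]
    refine Submodule.sum_mem _ fun S _ => ?_
    by_cases c : S ⊆ J ∧ S.card < d
    · exact Submodule.smul_mem _ _ (χ_mem c.1 c.2)
    · simp [h S c]

abbrev P (ι : Type) [Fintype ι] (d : ℕ) := PJ (univ : Finset ι) d

theorem P_mono {d e g} (h : g ∈ P ι d) (l : d ≤ e) : g ∈ P ι e :=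
  mem_PJ.2 fun S n => mem_PJ.1 h S fun z => n ⟨z.1, z.2.trans_le l⟩

theorem mul_s {d g} (i : ι) (h : g ∈ P ι d) : (fun x => s (x i) * g x) ∈ P ι (d + 1) := by
  refine PJ_map (fun g x => s (x i) * g x) (fun _ _ => funext fun _ => mul_add ..)
    (fun _ _ => funext fun _ => mul_left_comm ..) (fun S _ c => ?_) h
  by_cases e : i ∈ S
  · rw [show (fun x => s (x i) * χ S x) = χ (S.erase i) from funext fun x => by
      rw [χ, ← mul_prod_erase _ _ e, ← mul_assoc, s_sq, one_mul, χ]]
    exact χ_mem (subset_univ _) (card_erase_le.trans_lt (by omega))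
  · rw [show (fun x => s (x i) * χ S x) = χ (insert i S) from funext fun x => by rw [χ, χ, prod_insert e]]
    exact χ_mem (subset_univ _) (by rw [card_insert_of_notMem e]; omega)

theorem prod_mul {κ : Type} (T : Finset κ) (f : κ → ι) {d g} (h : g ∈ P ι d) :
    (fun x => (∏ j ∈ T, s (x (f j))) * g x) ∈ P ι (T.card + d) := by
  classical
  induction T using Finset.induction_on with
  | empty => simpa using h
  | insert j T n ih =>
    simpa only [prod_insert n, card_insert_of_notMem n, mul_assoc, add_right_comm] using mul_s (f j) ih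

theorem prod_mem_P {κ : Type} (T : Finset κ) (f : κ → ι) {d} (h : T.card < d) :
    (fun x => ∏ j ∈ T, s (x (f j))) ∈ P ι d := by
  simpa [χ] using P_mono (prod_mul T f (χ_mem (S := ∅) (subset_univ _) one_pos)) h

theorem mul_mem {d e a b} (ha : a ∈ P ι (d + 1)) (hb : b ∈ P ι e) : (fun x => a x * b x) ∈ P ι (d + e) :=
  PJ_map (fun a x => a x * b x) (fun _ _ => funext fun _ => add_mul ..) (fun _ _ => funext fun _ => mul_assoc ..)
    (fun S _ c => P_mono (prod_mul S id hb) (by omega)) ha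

theorem ex_odd (i : ι) {φ : (ι → Bool) → ℝ} (h : ∀ x, φ (flip i x) = φ x) : 𝔼 x, s (x i) * φ x = 0 := by
  have := ex_flip i fun x => s (x i) * φ x
  simp only [h] at this
  simp [H.MP_cd40e2_lc.flip, expect_neg_distrib] at this
  linarith

theorem hyper (J : Finset ι) : ∀ d, ∀ q ∈ PJ J d, 𝔼 x, q x ^ 4 ≤ 9 ^ d * (𝔼 x, q x ^ 2) ^ 2 := by
  induction J using Finset.induction_on with
  | empty =>
    intro d q hq
    obtain ⟨c, rfl⟩ : ∃ c, q = fun _ => c := PJ_ind hq ⟨_, rfl⟩ (by rintro _ _ ⟨a, rfl⟩ ⟨b, rfl⟩; exact ⟨_, rfl⟩)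
      (by rintro _ _ ⟨a, rfl⟩; exact ⟨_, rfl⟩) fun S e _ => ⟨1, by rw [subset_empty.1 e]; rfl⟩
    simp only [Fintype.expect_const, ← pow_mul]
    exact le_mul_of_one_le_left (by positivity) (one_le_pow₀ (by norm_num))
  | insert i J n ih =>
    rintro (_ | d) q hq
    · obtain rfl : q = fun _ => 0 := PJ_ind hq rfl (by rintro _ _ rfl rfl; simp) (by rintro _ _ rfl; simp) (by simp)
      simp
    obtain ⟨a, ha, b, hb, rfl⟩ : ∃ a ∈ PJ J (d + 1), ∃ b ∈ PJ J d, q = fun x => a x + s (x i) * b x := by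
      refine PJ_ind hq ⟨0, zero_mem _, 0, zero_mem _, by simp⟩ ?_ ?_ fun S e c => ?_
      · rintro _ _ ⟨a, ha, b, hb, rfl⟩ ⟨a', ha', b', hb', rfl⟩
        exact ⟨_, add_mem ha ha', _, add_mem hb hb', funext fun x => by simp; ring⟩
      · rintro c _ ⟨a, ha, b, hb, rfl⟩
        exact ⟨_, Submodule.smul_mem _ c ha, _, Submodule.smul_mem _ c hb, funext fun x => by simp; ring⟩
      · by_cases m : i ∈ S
        · exact ⟨0, zero_mem _, χ (S.erase i), χ_mem (subset_insert_iff.1 e) (by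
            rw [card_erase_of_mem m]; have := card_pos.2 ⟨i, m⟩; omega), funext fun x => by
              simp [χ, mul_prod_erase _ (fun i => s (x i)) m]⟩
        · exact ⟨χ S, χ_mem ((subset_insert_iff_of_notMem m).1 e) c, 0, zero_mem _, by simp⟩
    have f : ∀ e, ∀ g ∈ PJ J e, ∀ x, g (flip i x) = g x := fun e g hg =>
      PJ_ind hg (by simp) (by simp +contextual) (by simp +contextual) fun S e _ x =>
        prod_congr rfl fun j hj => by
          rw [H.MP_cd40e2_lc.flip, Function.update_of_ne (by rintro rfl; exact n (e hj))]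
    have e2 : ∀ x, (a x + s (x i) * b x) ^ 2 = a x ^ 2 + b x ^ 2 + s (x i) * (2 * a x * b x) := fun x => by
      linear_combination b x ^ 2 * s_sq (x i)
    have e4 : ∀ x, (a x + s (x i) * b x) ^ 4 = a x ^ 4 + 6 * (a x ^ 2 * b x ^ 2) + b x ^ 4 +
        s (x i) * (4 * a x * b x * (a x ^ 2 + b x ^ 2)) := fun x => by
      cases x i <;> simp [s] <;> ring
    simp only [e2, e4, expect_add_distrib, ← mul_expect]
    rw [ex_odd i (by simp [f _ _ ha, f _ _ hb]), ex_odd i (by simp [f _ _ ha, f _ _ hb])]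
    have h1 := ih _ _ ha
    have h2 := ih _ _ hb
    have h3 := expect_mul_sq_le_sq_mul_sq univ (fun x => a x ^ 2) fun x => b x ^ 2
    simp only [← pow_mul] at h3
    have pA : 0 ≤ 𝔼 x, a x ^ 2 := expect_nonneg fun _ _ => sq_nonneg _
    have pB : 0 ≤ 𝔼 x, b x ^ 2 := expect_nonneg fun _ _ => sq_nonneg _
    have h4 : 𝔼 x, a x ^ 2 * b x ^ 2 ≤ 3 * 9 ^ d * (𝔼 x, a x ^ 2) * 𝔼 x, b x ^ 2 := by
      refine le_of_sq_le_sq ?_ (by positivity)
      exact h3.trans ((mul_le_mul h1 h2 (expect_nonneg fun _ _ => by positivity) (by positivity)).trans_eq (by ring))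
    have : 0 ≤ 9 ^ d * (𝔼 x, b x ^ 2) ^ 2 := by positivity
    rw [pow_succ] at h1 ⊢
    nlinarith

theorem ex_swap (R : Finset ι) (Φ : (ι → Bool) → (ι → Bool) → ℝ) :
    𝔼 x, 𝔼 y, Φ (R.piecewise y x) (R.piecewise x y) = 𝔼 x, 𝔼 y, Φ x y := by
  rw [← expect_product', ← expect_product', univ_product_univ]
  exact Fintype.expect_bijective _ (Function.Involutive.bijective
    (f := fun z : (ι → Bool) × (ι → Bool) => (R.piecewise z.2 z.1, R.piecewise z.1 z.2)) fun z => by
      ext i <;> by_cases e : i ∈ R <;> simp [e]) _ _ fun _ => rfl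

noncomputable def uT (R T : Finset ι) (g : (ι → Bool) → ℝ) (x : ι → Bool) : ℝ := co (fun y => g (R.piecewise y x)) T

theorem χ_pw (R S : Finset ι) (x y) : χ S (R.piecewise y x) = χ (S \ R) x * χ (S ∩ R) y := by
  simp only [χ]
  rw [← prod_inter_mul_prod_diff S R, mul_comm]
  exact congrArg₂ _ (prod_congr rfl fun i hi => by simp [(mem_sdiff.1 hi).2])
    (prod_congr rfl fun i hi => by simp [(mem_inter.1 hi).2])

theorem uT_χ (R T S : Finset ι) (x) : uT R T (χ S) x = if S ∩ R = T then χ (S \ R) x else 0 := by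
  simp [uT, co, χ_pw, mul_assoc, ← mul_expect, orth]

theorem uT_mem (R T : Finset ι) {d g} (h : g ∈ P ι (d + T.card)) : uT R T g ∈ P ι d := by
  refine PJ_map (uT R T) (fun _ _ => funext fun _ => by simp [uT, co, add_mul, expect_add_distrib])
    (fun _ _ => funext fun _ => by simp [uT, co, mul_assoc, mul_expect]) (fun S _ c => ?_) h
  rw [funext (uT_χ R T S)]
  split_ifs with e
  · exact χ_mem (subset_univ _) (by have := card_sdiff_add_card_inter S R; rw [e] at this; omega)
  · exact zero_mem _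

theorem uT_sq (R T : Finset ι) (g) : 𝔼 x, uT R T g x ^ 2 = ∑ S, if S ∩ R = T then co g S ^ 2 else 0 := by
  have e : ∀ x, uT R T g x = ∑ S, co g S * uT R T (χ S) x := fun x => by
    conv_lhs => rw [uT, co]; enter [2, y, 1]; rw [expand g]
    simp only [sum_mul, expect_sum_comm, mul_assoc, ← mul_expect]; rfl
  simp only [e, sq, sum_mul_sum, expect_sum_comm, mul_mul_mul_comm (co g _), ← mul_expect, uT_χ]
  refine sum_congr rfl fun S _ => ?_
  rw [sum_eq_single S (fun S' _ n => ?_) (by simp)]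
  · split_ifs <;> simp [orth]
  · split_ifs with a b <;> simp [orth]
    intro c
    exact (n (by rw [← sdiff_union_inter S R, ← sdiff_union_inter S' R, a, b, c])).elim

theorem pw_mem (R : Finset ι) (x) {d g} (h : g ∈ P ι d) : (fun y => g (R.piecewise y x)) ∈ P ι d :=
  PJ_map (fun g y => g (R.piecewise y x)) (fun _ _ => rfl) (fun _ _ => rfl) (fun S _ c => by
    simp only [χ_pw]
    exact Submodule.smul_mem _ _ (χ_mem (subset_univ _) ((card_le_card inter_subset_left).trans_lt c))) h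

end Pool.Agent.H.MP_375aa5_lc
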