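import Pool.Agent.H.MP_375aa5_lc.A

set_option autoImplicit false

namespace Pool.Agent.H.MP_375aa5_lc

open Finset Pool.Agent.H.MP_cd40e2_lc
open scoped BigOperators

variable {ι : Type} [Fintype ι] [DecidableEq ι]

theorem pars (g : (ι → Bool) → ℝ) : 𝔼 x, g x ^ 2 = ∑ S, co g S ^ 2 := by rw [parseval]; simp only [sq]

theorem ptw {d : ℕ} {m Q : (ι → Bool) → ℝ} (hm : ∀ x, 0 ≤ m x) (hQ : Q ∈ P ι (d + 1)) (R : Finset ι) {l : ℝ}
    (l0 : 0 ≤ l) (hl : ∑ T with T ≠ ∅ ∧ T.card ≤ 2 * d, co m T ^ 2 ≤ l ^ 2) :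
    (co m ∅ - 3 ^ (d + 1) * l) * ∑ i ∈ R, co Q {i} ^ 2 ≤ 𝔼 x, m x * Q x ^ 2 := by
  by_cases c : co m ∅ - 3 ^ (d + 1) * l ≤ 0
  · exact (mul_nonpos_of_nonpos_of_nonneg c (by positivity)).trans
      (expect_nonneg fun x _ => mul_nonneg (hm x) (sq_nonneg _))
  have a : ∑ i ∈ R, co Q {i} ^ 2 ≤ 𝔼 x, Q x ^ 2 := by
    rw [pars, ← sum_image (f := fun S => co Q S ^ 2) (g := fun i => {i}) fun _ _ _ _ e => singleton_injective e]
    exact sum_le_sum_of_subset_of_nonneg (subset_univ _) fun _ _ _ => sq_nonneg _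
  refine (mul_le_mul_of_nonneg_left a (not_le.1 c).le).trans ?_
  have h2 := mem_PJ.1 (mul_mem hQ hQ)
  simp only [← sq] at h2
  have e : ∑ T, co m T * co (fun x => Q x ^ 2) T = co m ∅ * (𝔼 x, Q x ^ 2) +
      ∑ T with T ≠ ∅ ∧ T.card ≤ 2 * d, co m T * co (fun x => Q x ^ 2) T := by
    rw [← add_sum_erase _ _ (mem_univ ∅), sum_filter, ← add_sum_erase _ _ (mem_univ ∅)]
    simp only [ne_eq, not_true, false_and, if_false, zero_add]
    refine congrArg₂ _ (by simp [co, χ]) (sum_congr rfl fun T hT => ?_)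
    split_ifs with z
    · rfl
    · rw [h2 T fun y => z ⟨ne_of_mem_erase hT, by omega⟩, mul_zero]
  rw [planch m, e]
  have b := sum_mul_sq_le_sq_mul_sq (filter (fun T => T ≠ ∅ ∧ T.card ≤ 2 * d) univ) (co m) (co fun x => Q x ^ 2)
  have b2 : ∑ T with T ≠ ∅ ∧ T.card ≤ 2 * d, co (fun x => Q x ^ 2) T ^ 2 ≤ (3 ^ (d + 1) * 𝔼 x, Q x ^ 2) ^ 2 := by
    refine (sum_le_sum_of_subset_of_nonneg (subset_univ _) fun _ _ _ => sq_nonneg _).trans ?_
    rw [← pars, mul_pow, ← pow_mul, mul_comm _ 2, pow_mul]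
    simp only [← pow_mul]
    exact (hyper _ _ _ hQ).trans_eq (by rw [pow_mul]; norm_num)
  have p : 0 ≤ 𝔼 x, Q x ^ 2 := expect_nonneg fun _ _ => sq_nonneg _
  have := (abs_le_of_sq_le_sq' (b := l * (3 ^ (d + 1) * 𝔼 x, Q x ^ 2))
    (b.trans ((mul_le_mul hl b2 (by positivity) (by positivity)).trans_eq (by ring))) (by positivity)).1
  linarith

noncomputable def Lam (d : ℕ) (μ : (ι → Bool) → ℝ) (R : Finset ι) : ℝ :=
  ∑ S, if S ∩ R ≠ ∅ ∧ (S ∩ R).card ≤ 2 * d then co μ S ^ 2 else 0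

theorem uT_pw (R T : Finset ι) (g) (x y) : uT R T g (R.piecewise y x) = uT R T g x := by
  simp only [uT, piecewise_idem_right]

theorem deriv {d : ℕ} {μ q : (ι → Bool) → ℝ} (hμ : ∀ x, 0 ≤ μ x) (hq : q ∈ P ι (d + 1)) (R : Finset ι) {κ a : ℝ}
    (a0 : 0 ≤ a) (ha : Lam d μ R ≤ a ^ 2) (h : ∀ i ∈ R, κ * 𝔼 x, uT R {i} q x ^ 2 ≤ 𝔼 x, μ x * uT R {i} q x ^ 2) :
    (κ - 3 ^ (2 * d + 1) * a) * ∑ S, (if (S ∩ R).card = 1 then co q S ^ 2 else 0) ≤ 𝔼 x, μ x * q x ^ 2 := by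
  let l : (ι → Bool) → ℝ := fun x => √(∑ T with T ≠ ∅ ∧ T.card ≤ 2 * d, uT R T μ x ^ 2)
  have e1 : 𝔼 x, l x ^ 2 = Lam d μ R := by
    simp only [l, Lam]
    rw [expect_congr rfl fun x _ => Real.sq_sqrt (by positivity), expect_sum_comm]
    simp only [uT_sq]
    rw [sum_comm]
    simp
  have e2 : 𝔼 x, μ x * q x ^ 2 = 𝔼 x, 𝔼 y, μ (R.piecewise y x) * q (R.piecewise y x) ^ 2 := by
    rw [ex_swap R fun x _ => μ x * q x ^ 2]; simp
  have e3 : ∑ S, (if (S ∩ R).card = 1 then co q S ^ 2 else 0) = ∑ i ∈ R, 𝔼 x, uT R {i} q x ^ 2 := by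
    simp only [uT_sq]
    rw [sum_comm]
    refine sum_congr rfl fun S _ => ?_
    split_ifs with c
    · obtain ⟨i, hi⟩ := card_eq_one.1 c
      rw [hi, sum_eq_single i (by simp +contextual [eq_comm])
        (fun n => (n (mem_inter.1 (hi ▸ mem_singleton_self i)).2).elim), if_pos rfl]
    · exact (sum_eq_zero fun i _ => if_neg fun z => c (by simp [z])).symm
  rw [e2, e3]
  refine le_trans ?_ (expect_le_expect fun x _ => ptw (fun y => hμ _) (pw_mem R x hq) R (l := l x) (Real.sqrt_nonneg _)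
    (Real.sq_sqrt (by positivity)).ge)
  simp only [mul_sum, expect_sum_comm]
  refine sum_le_sum fun i hi => ?_
  have b1 : 𝔼 x, co (fun y => μ (R.piecewise y x)) ∅ * uT R {i} q x ^ 2 = 𝔼 x, μ x * uT R {i} q x ^ 2 := by
    simp only [co, χ, prod_empty, mul_one, expect_mul]
    have := ex_swap R fun x y => μ x * uT R {i} q x ^ 2
    simp only [uT_pw] at this
    rw [this]; simp
  have p : 0 ≤ 𝔼 x, uT R {i} q x ^ 2 := expect_nonneg fun _ _ => sq_nonneg _
  have b2 : 𝔼 x, l x * uT R {i} q x ^ 2 ≤ a * (3 ^ d * 𝔼 x, uT R {i} q x ^ 2) := by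
    refine le_of_sq_le_sq ((expect_mul_sq_le_sq_mul_sq _ _ _).trans ?_) (by positivity)
    simp only [← pow_mul]
    refine (mul_le_mul (e1.trans_le ha) (hyper _ _ _ (uT_mem R {i} hq)) (expect_nonneg fun _ _ => by positivity)
      (by positivity)).trans_eq ?_
    rw [show (9 : ℝ) ^ d = (3 ^ d) ^ 2 by rw [← pow_mul, mul_comm, pow_mul]; norm_num]; ring
  change _ ≤ 𝔼 x, (_ - _) * uT R {i} q x ^ 2
  simp only [sub_mul, expect_sub_distrib, mul_assoc, ← mul_expect, b1]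
  have := mul_le_mul_of_nonneg_left b2 (show (0 : ℝ) ≤ 3 ^ (d + 1) by positivity)
  have := h i hi
  have e : (3 : ℝ) ^ (2 * d + 1) = 3 ^ (d + 1) * 3 ^ d := by ring
  rw [e]; linarith

theorem ex_ins {α : Type} [Fintype α] [Nonempty α] {i : ι} {B : Finset ι} (n : i ∉ B) (ψ φ : α → ℝ) :
    𝔼 h : ι → α, ψ (h i) * ∏ j ∈ B, φ (h j) = (𝔼 a, ψ a) * (𝔼 a, φ a) ^ B.card := by
  have := ex_prod fun j a => if j ∈ insert i B then (if j = i then ψ a else φ a) else 1
  simp only [← H.MP_cd40e2_lc.prod_mem, prod_insert n, if_true] at this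
  rw [← prod_const, expect_congr rfl fun h _ => by
    rw [prod_congr (g := fun j => if j = i then ψ (h j) else φ (h j)) rfl fun j hj =>
      (if_neg (by rintro rfl; exact n hj)).symm], this, ← prod_subset (subset_univ (insert i B)) (by simp +contextual),
    prod_insert n]
  simp only [mem_insert, true_or, if_true]
  exact congrArg _ (prod_congr rfl fun j hj => by simp [hj, show j ≠ i by rintro rfl; exact n hj])

def ind {m : ℕ} [NeZero m] (a : Fin m) : ℝ := if a = 0 then 1 else 0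

theorem ind_nonneg {m : ℕ} [NeZero m] (a : Fin m) : 0 ≤ ind a := by unfold ind; split_ifs <;> simp

theorem ex_ind {m : ℕ} [NeZero m] : 𝔼 a : Fin m, ind a = 1 / m := by simp [ind, expect_eq_sum_div_card]

theorem ex_pair {m : ℕ} [NeZero m] (i : ι) (T : Finset ι) :
    𝔼 h : ι → Fin m, ind (h i) * ∑ j ∈ T.erase i, ind (h j) ≤ 1 / m * (T.card / m) := by
  simp only [mul_sum, expect_sum_comm]
  refine (sum_le_card_nsmul _ _ (1 / m * (1 / m) : ℝ) fun j hj => ?_).trans ?_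
  · simpa [ex_ind] using (ex_ins (B := {j}) (by simpa using (ne_of_mem_erase hj).symm) ind (ind (m := m))).le
  · have : ((T.erase i).card : ℝ) ≤ T.card := by exact_mod_cast card_erase_le
    rw [nsmul_eq_mul, mul_left_comm, mul_one_div (card _ : ℝ)]
    gcongr

def Rh {m : ℕ} [NeZero m] (H : Finset ι) (h : ι → Fin m) : Finset ι := univ.filter fun j => j ∉ H ∧ h j = 0

theorem ex_lam {m d D L : ℕ} [NeZero m] (hD : D ≤ L) (μ : (ι → Bool) → ℝ) (h1 : ∑ S, co μ S ^ 2 ≤ 1) (H : Finset ι)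
    (i : ι) : 𝔼 h : ι → Fin m, ind (h i) * Lam d μ (Rh H h) ≤
    1 / m * (∑ T with i ∈ T ∧ T.card ≤ D, co μ T ^ 2 +
      (∑ T with T.card ≤ H.card + 1 + L, co μ T ^ 2 - ∑ T with T.card ≤ D, co μ T ^ 2) +
      (D / m + 4 ^ d * (1 - 1 / (2 * m)) ^ L)) := by
  have m0 : (1 : ℝ) ≤ m := by exact_mod_cast NeZero.pos m
  have r0 : (0 : ℝ) ≤ 1 - 1 / (2 * m) := sub_nonneg.2 ((div_le_one (by positivity)).2 (by linarith))
  have e1 : 𝔼 h : ι → Fin m, ind (h i) = 1 / m := by simpa [ex_ind] using ex_ins (notMem_empty i) (ind (m := m)) ind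
  set β : ℝ := D / m + 4 ^ d * (1 - 1 / (2 * m)) ^ L with hβ
  have p1 : (0 : ℝ) ≤ D / m := by positivity
  have p2 : (0 : ℝ) ≤ 4 ^ d * (1 - 1 / (2 * m)) ^ L := by positivity
  refine le_trans ?_ (mul_le_mul_of_nonneg_left (add_le_add_right (mul_le_of_le_one_left (by positivity) h1) _)
    (by positivity))
  simp only [Lam, sum_filter, sum_mul, ← sum_sub_distrib, ← sum_add_distrib, mul_sum, expect_sum_comm]
  refine sum_le_sum fun T _ => ?_
  suffices 𝔼 h : ι → Fin m, ind (h i) * (if T ∩ (Rh H h) ≠ ∅ ∧ (T ∩ (Rh H h)).card ≤ 2 * d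
      then 1 else 0) ≤ 1 / m * ((if i ∈ T ∧ T.card ≤ D then 1 else 0) +
        ((if T.card ≤ H.card + 1 + L then 1 else 0) - if T.card ≤ D then 1 else 0) + β) by
    have := mul_le_mul_of_nonneg_right this (sq_nonneg (co μ T))
    simp only [expect_mul, mul_assoc, ite_mul, one_mul, zero_mul, add_mul, sub_mul] at this
    rwa [mul_comm β] at this
  by_cases c1 : T.card ≤ D
  · refine (expect_le_expect (g := fun h => ind (h i) * (if i ∈ T then 1 else 0) +
      ind (h i) * ∑ j ∈ T.erase i, ind (h j)) fun h _ => ?_).trans ?_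
    · rw [← mul_add]
      refine mul_le_mul_of_nonneg_left ?_ (ind_nonneg _)
      have p := sum_nonneg fun j (_ : j ∈ T.erase i) => ind_nonneg (h j)
      split_ifs with a b <;> try linarith
      obtain ⟨j, hj⟩ := nonempty_iff_ne_empty.2 a.1
      simp only [mem_inter, Rh, mem_filter] at hj
      simpa [ind, hj] using single_le_sum (a := j) (fun j _ => ind_nonneg (h j))
        (mem_erase.2 ⟨fun e : j = i => b (e ▸ hj.1), hj.1⟩)
    · rw [expect_add_distrib, ← expect_mul, e1, if_pos c1, if_pos (show T.card ≤ H.card + 1 + L by omega)]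
      refine (add_le_add_right (ex_pair i T) _).trans ?_
      rw [← mul_add]
      have : (T.card : ℝ) / m ≤ D / m := by gcongr
      simp only [c1, and_true]
      exact mul_le_mul_of_nonneg_left (by linarith) (by positivity)
  by_cases c2 : T.card ≤ H.card + 1 + L
  · refine (expect_le_expect (g := fun h => ind (h i)) fun h _ => ?_).trans ?_
    · split_ifs <;> simp [ind_nonneg]
    · rw [e1]; simp only [c1, c2, and_false, if_true, if_false]
      exact le_mul_of_one_le_right (by positivity) (by linarith)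
  refine (expect_le_expect (g := fun h => 4 ^ d * (ind (h i) * ∏ j ∈ (T \ H).erase i, (1 - ind (h j) / 2)))
    fun h _ => ?_).trans ?_
  · rw [mul_left_comm]
    refine mul_le_mul_of_nonneg_left ?_ (ind_nonneg _)
    have e : ∏ j ∈ (T \ H).erase i, (1 - ind (h j) / 2) = (1 / 2) ^ (filter (fun j => h j = 0) ((T \ H).erase i)).card := by
      rw [← prod_const, prod_filter]
      exact prod_congr rfl fun j _ => by unfold ind; split_ifs <;> norm_num
    rw [e]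
    split_ifs with a
    · refine le_trans (by rw [pow_mul, ← mul_pow]; norm_num) (mul_le_mul_of_nonneg_left (pow_le_pow_of_le_one
        (by norm_num) (by norm_num) ((card_le_card fun j => ?_).trans a.2)) (by positivity))
      simp +contextual [Rh]
    · positivity
  · rw [← mul_expect, ex_ins (notMem_erase _ _) ind fun a => 1 - ind a / 2, expect_sub_distrib, ← expect_div, ex_ind,
      Fintype.expect_const, mul_left_comm, div_div, mul_comm (m : ℝ)]
    simp only [c1, c2, and_false, if_false]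
    have : (1 - 1 / (2 * m) : ℝ) ^ ((T \ H).erase i).card ≤ (1 - 1 / (2 * m)) ^ L :=
      pow_le_pow_of_le_one r0 (sub_le_self _ (by positivity)) (by
        have := pred_card_le_card_erase (s := T \ H) (a := i); have := le_card_sdiff H T; omega)
    have := mul_le_mul_of_nonneg_left this (show (0 : ℝ) ≤ 4 ^ d by positivity)
    gcongr
    linarith

theorem tail {m d : ℕ} [NeZero m] {μ q : (ι → Bool) → ℝ} (hμ : ∀ x, 0 ≤ μ x) (hq : q ∈ P ι (d + 1)) (H : Finset ι)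
    {κ a : ℝ} (a0 : 0 < a) (hκ : 2 * (3 ^ (2 * d + 1) * a) = κ) (hm : 4 * d ≤ m)
    (h1 : ∀ i ∉ H, 𝔼 h : ι → Fin m, ind (h i) * Lam d μ (Rh H h) ≤ 1 / m * (a ^ 2 / 2))
    (h2 : ∀ R, Disjoint R H → ∀ i ∈ R, κ * 𝔼 x, uT R {i} q x ^ 2 ≤ 𝔼 x, μ x * uT R {i} q x ^ 2) :
    κ / (8 * m) * ∑ S with ¬ S ⊆ H, co q S ^ 2 ≤ 𝔼 x, μ x * q x ^ 2 := by
  have m0 : (0 : ℝ) < m := by exact_mod_cast NeZero.pos m
  have k0 : 0 < κ := by rw [← hκ]; positivity
  have k : ∀ h : ι → Fin m, κ / 2 * ∑ S, (if Lam d μ (Rh H h) ≤ a ^ 2 ∧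
      (S ∩ (Rh H h)).card = 1 then 1 else 0) * co q S ^ 2 ≤ 𝔼 x, μ x * q x ^ 2 := fun h => by
    by_cases c : Lam d μ (Rh H h) ≤ a ^ 2
    · have := deriv hμ hq _ a0.le c (h2 _ (by simp +contextual [disjoint_left, Rh]))
      simp only [c, true_and, ite_mul, one_mul, zero_mul]
      rwa [show κ - 3 ^ (2 * d + 1) * a = κ / 2 by linarith] at this
    · simpa [c] using expect_nonneg fun x _ => mul_nonneg (hμ x) (sq_nonneg (q x))
  refine le_trans ?_ (expect_le univ_nonempty fun h _ => k h)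
  rw [← mul_expect, expect_sum_comm, sum_filter, show κ / (8 * m) = κ / 2 * (1 / m / 4) by field_simp; ring, mul_assoc,
    mul_sum]
  refine mul_le_mul_of_nonneg_left (sum_le_sum fun S _ => ?_) (by positivity)
  rw [← expect_mul]
  have p : ∀ p : (ι → Fin m) → Prop, ∀ [DecidablePred p], (0 : ℝ) ≤ 𝔼 h, if p h then 1 else 0 :=
    fun p _ => expect_nonneg fun _ _ => by split_ifs <;> simp
  split_ifs with c
  · simpa using mul_nonneg (p _) (sq_nonneg (co q S))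
  by_cases c2 : S.card < d + 1
  swap
  · simp [mem_PJ.1 hq S fun z => c2 z.2]
  obtain ⟨i, i1, i2⟩ := not_subset.1 c
  refine mul_le_mul_of_nonneg_right (le_trans ?_ (expect_le_expect (f := fun h => ind (h i) -
    ind (h i) * ∑ j ∈ S.erase i, ind (h j) - ind (h i) * Lam d μ (Rh H h) / a ^ 2) fun h _ => ?_))
    (sq_nonneg _)
  · have e1 : 𝔼 h : ι → Fin m, ind (h i) = 1 / m := by simpa [ex_ind] using ex_ins (notMem_empty i) (ind (m := m)) ind
    rw [expect_sub_distrib, expect_sub_distrib, ← expect_div, e1]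
    have b1 := (div_le_iff₀ (sq_pos_of_pos a0)).2 ((h1 i i2).trans_eq (by ring : _ = 1 / m / 2 * a ^ 2))
    have b2 : (S.card : ℝ) / m ≤ 1 / 4 := by
      rw [div_le_iff₀ m0]
      have : ((4 * S.card : ℕ) : ℝ) ≤ m := by exact_mod_cast (by omega : 4 * S.card ≤ m)
      push_cast at this; linarith
    have := (ex_pair (m := m) i S).trans (mul_le_mul_of_nonneg_left b2 (by positivity))
    linarith
  · have p1 := sum_nonneg fun j (_ : j ∈ S.erase i) => ind_nonneg (h j)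
    have p2 : 0 ≤ Lam d μ (Rh H h) / a ^ 2 :=
      div_nonneg (sum_nonneg fun _ _ => by split_ifs <;> positivity) (sq_nonneg _)
    by_cases e : h i = 0
    swap
    · simp only [ind, e, if_false]; split_ifs <;> simp
    simp only [show ind (h i) = 1 from if_pos e, one_mul]
    split_ifs with z
    · linarith
    rcases not_and_or.1 z with z | z
    · linarith [(one_le_div (sq_pos_of_pos a0)).2 (not_le.1 z).le]
    obtain ⟨j, j1, j2⟩ : ∃ j ∈ S ∩ Rh H h, j ≠ i := by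
      by_contra n
      push Not at n
      exact z (card_eq_one.2 ⟨i, eq_singleton_iff_unique_mem.2 ⟨by simp [i1, i2, e, Rh], n⟩⟩)
    simp only [mem_inter, Rh, mem_filter] at j1
    have := single_le_sum (fun j _ => ind_nonneg (h j)) (mem_erase.2 ⟨j2, j1.1⟩)
    rw [ind, if_pos j1.2.2.2] at this
    linarith

noncomputable def mass {κ : Type} [Fintype κ] [DecidableEq κ] (μ : (ι → Bool) → ℝ) (g : κ → ι) (y : κ → Bool) : ℝ :=
  𝔼 x, if x ∘ g = y then μ x else 0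

def Orth (d : ℕ) (A : Set (ι → Bool)) (q : (ι → Bool) → ℝ) : Prop :=
  ∀ v ∈ P ι d, (∀ x ∈ A, v x = 0) → 𝔼 x, q x * v x = 0

theorem interp (κ : Type) [Fintype κ] [DecidableEq κ] (d : ℕ) (B : Set (κ → Bool)) : ∃ C, ∀ Q ∈ P κ d, ∀ T : ℝ, 0 ≤ T →
    (∀ y ∈ B, |Q y| ≤ T) → ∃ W ∈ P κ d, (∀ y ∈ B, W y = Q y) ∧ ∀ y, |W y| ≤ C * T := by
  classical
  obtain ⟨C, -, h⟩ := hoff fun j : (κ → Bool) × Bool => s j.2 • (LinearMap.proj j.1).domRestrict (P κ d)
  refine ⟨C, fun Q hQ T hT hB => ?_⟩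
  obtain ⟨W, h1, h2⟩ := h {j | j.1 ∈ B} (fun j => if j.1 ∈ B then s j.2 * Q j.1 else 0) T ⟨Q, hQ⟩ hT
    (fun j => by split_ifs with e <;> simp [abs_mul, hB _, *]) fun j hj => by rw [if_pos (show j.1 ∈ B from hj)]; rfl
  refine ⟨W, W.2, fun y hy => ?_, fun y => (norm_le_pi_norm W.1 y).trans h2⟩
  have a := h1 (y, true) hy
  have b := h1 (y, false) hy
  simp [hy, s] at a b
  exact le_antisymm b a

theorem step (κ : Type) [Fintype κ] [DecidableEq κ] (d : ℕ) (B : Set (κ → Bool)) {θ C₁ : ℝ} (hθ : 0 < θ) (c1 : 0 ≤ C₁) :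
    ∃ C, 0 < C ∧ ∀ (ι : Type) [Fintype ι] [DecidableEq ι] (μ q : (ι → Bool) → ℝ) (g : κ → ι), (∀ x, 0 ≤ μ x ∧ μ x ≤ 1) →
    q ∈ P ι d → (∀ y ∈ B, θ ≤ mass μ g y) → Orth d {x | x ∘ g ∈ B} q →
    ∑ S with ¬ S ⊆ univ.image g, co q S ^ 2 ≤ C₁ * 𝔼 x, μ x * q x ^ 2 → 𝔼 x, q x ^ 2 ≤ C * 𝔼 x, μ x * q x ^ 2 := by
  obtain ⟨C, hC⟩ := interp κ d B
  refine ⟨C ^ 2 * (2 * (1 + C₁) / θ) + 2 * C₁ + 1, by positivity, fun ι _ _ μ q g hμ hq h1 h2 h3 => ?_⟩
  let r : (ι → Bool) → ℝ := fun x => ∑ S, (if S ⊆ univ.image g then 0 else co q S) * χ S x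
  have r1 : 𝔼 x, r x ^ 2 = ∑ S with ¬ S ⊆ univ.image g, co q S ^ 2 := by
    rw [pars, sum_filter]; exact sum_congr rfl fun S _ => by rw [co_sum]; split_ifs <;> simp
  have r2 : 𝔼 x, q x * r x = ∑ S with ¬ S ⊆ univ.image g, co q S ^ 2 := by
    rw [planch, sum_filter]; exact sum_congr rfl fun S _ => by rw [co_sum]; split_ifs <;> simp [sq]
  have r3 : (fun x => q x - r x) ∈ PJ (univ.image g) d := mem_PJ.2 fun S n => by
    simp only [co, sub_mul, expect_sub_distrib]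
    change co q S - co r S = 0
    rw [co_sum]
    split_ifs with e
    · rw [mem_PJ.1 hq S fun z => n ⟨e, z.2⟩, sub_zero]
    · exact sub_self _
  obtain ⟨Q, hQ, e⟩ : ∃ Q ∈ P κ d, (fun x => q x - r x) = fun x => Q (x ∘ g) := by
    refine PJ_ind r3 ⟨0, zero_mem _, rfl⟩ ?_ ?_ fun S a b => ?_
    · rintro _ _ ⟨a, ha, rfl⟩ ⟨b, hb, rfl⟩; exact ⟨_, add_mem ha hb, rfl⟩
    · rintro c _ ⟨a, ha, rfl⟩; exact ⟨_, Submodule.smul_mem _ c ha, rfl⟩
    · obtain ⟨T, -, t1, rfl⟩ := exists_subset_injOn_image_eq_of_surjOn (f := g) Set.univ S fun j hj => by simpa using a hj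
      exact ⟨χ T, χ_mem (subset_univ _) (by rwa [← card_image_of_injOn t1]), funext fun x => prod_image t1⟩
  have e' := congrFun e
  set Y := 𝔼 x, μ x * q x ^ 2
  have Y0 : 0 ≤ Y := expect_nonneg fun x _ => mul_nonneg (hμ x).1 (sq_nonneg _)
  have b1 : 𝔼 x, μ x * Q (x ∘ g) ^ 2 ≤ 2 * (1 + C₁) * Y := by
    refine (expect_le_expect (g := fun x => 2 * (μ x * q x ^ 2) + 2 * r x ^ 2) fun x _ => ?_).trans ?_
    · rw [← e']; nlinarith [mul_nonneg (hμ x).1 (sq_nonneg (q x + r x)), mul_nonneg (sub_nonneg.2 (hμ x).2) (sq_nonneg (r x))]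
    · rw [expect_add_distrib, ← mul_expect, ← mul_expect, r1]; linarith
  obtain ⟨W, hW, w1, w2⟩ := hC Q hQ √(2 * (1 + C₁) / θ * Y) (Real.sqrt_nonneg _) fun y hy => Real.abs_le_sqrt (by
    rw [div_mul_eq_mul_div, le_div_iff₀ hθ]
    refine ((mul_le_mul_of_nonneg_left (h1 y hy) (sq_nonneg _)).trans ?_).trans b1
    rw [mass, mul_expect]
    refine expect_le_expect fun x _ => ?_
    split_ifs with z
    · rw [z, mul_comm]
    · simpa using mul_nonneg (hμ x).1 (sq_nonneg _))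
  have b2 := h2 (fun x => (Q - W) (x ∘ g)) (PJ_map (fun Q x => Q (x ∘ g)) (fun _ _ => rfl) (fun _ _ => rfl)
    (fun S _ c => prod_mem_P S g c) (sub_mem hQ hW)) fun x hx => by simp [w1 _ hx]
  simp only [Pi.sub_apply, ← e', mul_sub, expect_sub_distrib, r2, ← sq] at b2
  have b3 : 𝔼 x, q x * W (x ∘ g) ≤ 𝔼 x, (q x ^ 2 / 2 + C ^ 2 * (2 * (1 + C₁) / θ) * Y / 2) :=
    expect_le_expect fun x _ => by
      have := pow_le_pow_left₀ (abs_nonneg _) (w2 (x ∘ g)) 2
      rw [sq_abs, mul_pow, Real.sq_sqrt (by positivity)] at this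
      nlinarith [sq_nonneg (q x - W (x ∘ g))]
  rw [expect_add_distrib, ← expect_div, Fintype.expect_const] at b3
  linarith

end Pool.Agent.H.MP_375aa5_lc
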