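import Pool.Agent.H.MP_375aa5_lc.B

set_option autoImplicit false

namespace Pool.Agent.H.MP_375aa5_lc

open Finset Pool.Agent.H.MP_cd40e2_lc Filter
open scoped BigOperators Topology

section
variable {ι : Type} [Fintype ι] [DecidableEq ι]

theorem orth_uT {d : ℕ} {A A' : Set (ι → Bool)} {q} (hq : Orth (d + 1) A' q) {R : Finset ι} {i} (hi : i ∈ R)
    (h : ∀ x ∈ A', ∀ y, R.piecewise y x ∈ A) : Orth d A (uT R {i} q) := fun v hv h0 => by
  have := ex_swap R fun a b => q a * s (a i) * v (R.piecewise b a)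
  simp only [piecewise_eq_of_mem _ _ _ hi, piecewise_idem_left, piecewise_idem_right, piecewise_same] at this
  simp only [uT, co, χ, prod_singleton, expect_mul, this]
  simpa [uT, co, χ, mul_expect, mul_assoc] using hq _ (mul_s i (uT_mem R ∅ hv)) fun x hx => by
    simp [uT, co, h0 _ (h x hx _)]

theorem heavy {μ : (ι → Bool) → ℝ} (h1 : ∑ S, co μ S ^ 2 ≤ 1) [Nonempty ι] {D K : ℕ} {η : ℝ} (h0 : 0 < η)
    (hK : D ≤ K * η) : ∃ e : Fin K → ι, ∀ i ∉ univ.image e, ∑ T with i ∈ T ∧ T.card ≤ D, co μ T ^ 2 ≤ η := by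
  let J : Finset ι := univ.filter fun i => η < ∑ T with i ∈ T ∧ T.card ≤ D, co μ T ^ 2
  have a : J.card * η ≤ D := by
    rw [← nsmul_eq_mul]
    refine (card_nsmul_le_sum J _ _ fun i hi => (mem_filter.1 hi).2.le).trans
      ((sum_le_sum_of_subset_of_nonneg (subset_univ _) fun _ _ _ => by positivity).trans ?_)
    simp only [sum_filter]
    rw [sum_comm]
    refine (sum_le_sum (g := fun T => D * co μ T ^ 2) fun T _ => ?_).trans ?_
    · by_cases c : T.card ≤ D
      · simp only [c, and_true, sum_ite_mem, univ_inter, sum_const, nsmul_eq_mul]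
        gcongr
      · simp only [c, and_false, if_false, sum_const_zero]; positivity
    · rw [← mul_sum]; exact mul_le_of_le_one_right (by positivity) h1
  have b : J.card ≤ K := by exact_mod_cast le_of_mul_le_mul_right (a.trans hK) h0
  refine ⟨fun j => J.toList.getD j (Classical.arbitrary _), fun i hi => by_contra fun n => hi ?_⟩
  obtain ⟨j, hj, e⟩ := List.getElem_of_mem (mem_toList.2 (show i ∈ J by simpa [J] using n))
  exact mem_image.2 ⟨⟨j, by rw [length_toList] at hj; omega⟩, mem_univ _, (List.getD_eq_getElem _ _ hj).trans e⟩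

theorem proj (V : Submodule ℝ ((ι → Bool) → ℝ)) (p : (ι → Bool) → ℝ) :
    ∃ v ∈ V, ∀ w ∈ V, 𝔼 x, (p x - v x) * w x = 0 := by
  obtain ⟨y, hy, z, hz, e⟩ := Submodule.exists_add_mem_mem_orthogonal (E := EuclideanSpace ℝ (ι → Bool))
    (K := V.comap (WithLp.linearEquiv 2 ℝ _).toLinearMap) (WithLp.toLp 2 p)
  refine ⟨y.ofLp, hy, fun w hw => ?_⟩
  have := hz (WithLp.toLp 2 w) hw
  rw [← sub_eq_iff_eq_add'] at e
  subst e
  simp [PiLp.inner_apply] at this
  simp [expect_eq_sum_div_card, this]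

theorem fin {d : ℕ} {μ F q : (ι → Bool) → ℝ} {A : Set (ι → Bool)} [DecidablePred (· ∈ A)] {C γ : ℝ} (g0 : 0 < γ) (c0 : 0 < C)
    (hμ : ∀ x, 0 ≤ μ x ∧ μ x ≤ 1) (hq : q ∈ P ι (d + 1)) (h1 : 𝔼 x, q x ^ 2 = 1) (h2 : 1 ≤ C * 𝔼 x, μ x * q x ^ 2)
    (h3 : ∀ x, |F x| = 1) (h4 : ∀ x ∈ A, 0 ≤ F x * q x) (h5 : ∑ S with S.card ≤ d, co (fun x => μ x * F x) S ^ 2 ≤ γ ^ 2)
    (h6 : (𝔼 x, if x ∈ A then 0 else μ x) ≤ γ ^ 2) : 1 ≤ 6 * C * √(2 * C * 9 ^ (d + 1)) * γ := by
  set τ := √(2 * C * 9 ^ (d + 1))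
  have t0 : 0 < τ := by positivity
  have t1 : τ ^ 2 = 2 * C * 9 ^ (d + 1) := Real.sq_sqrt (by positivity)
  have a1 : 𝔼 x, μ x * F x * q x ≤ γ := by
    rw [planch (fun x => μ x * F x), ← sum_subset (filter_subset (fun S => S.card ≤ d) univ) fun S _ n => by
      rw [mem_PJ.1 hq S fun z => n (by simp; omega), mul_zero]]
    refine le_of_sq_le_sq ((sum_mul_sq_le_sq_mul_sq _ _ _).trans ((mul_le_mul h5 (le_of_le_of_eq
      (sum_le_sum_of_subset_of_nonneg (subset_univ _) fun _ _ _ => sq_nonneg _) ((pars q).symm.trans h1))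
      (by positivity) (by positivity)).trans_eq (mul_one _))) g0.le
  have a2 : 𝔼 x, μ x * q x ^ 2 ≤ 𝔼 x, (τ * (μ x * F x * q x + (if x ∈ A then 0 else μ x) / γ + γ * q x ^ 2) +
      q x ^ 4 / τ ^ 2) := expect_le_expect fun x _ => by
    have m := hμ x
    have b1 : μ x * q x ^ 2 ≤ τ * (μ x * |q x|) + q x ^ 4 / τ ^ 2 := by
      have p1 : 0 ≤ τ * (μ x * |q x|) := by have := m.1; positivity
      have p2 : 0 ≤ q x ^ 4 / τ ^ 2 := by positivity
      by_cases c : |q x| ≤ τ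
      · rw [← sq_abs]; nlinarith [mul_le_mul_of_nonneg_left c (mul_nonneg m.1 (abs_nonneg (q x)))]
      · have : q x ^ 2 ≤ q x ^ 4 / τ ^ 2 := by
          rw [le_div_iff₀ (by positivity), show q x ^ 4 = q x ^ 2 * |q x| ^ 2 by rw [sq_abs]; ring]
          gcongr
          exact (not_le.1 c).le
        nlinarith [mul_le_mul_of_nonneg_right m.2 (sq_nonneg (q x))]
    have e : |F x * q x| = |q x| := by rw [abs_mul, h3, one_mul]
    refine b1.trans (add_le_add_left (mul_le_mul_of_nonneg_left ?_ t0.le) _)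
    split_ifs with c
    · rw [← e, abs_of_nonneg (h4 x c), mul_assoc, zero_div, add_zero]
      exact le_add_of_nonneg_right (by positivity)
    · have b2 := mul_le_mul_of_nonneg_left (e ▸ neg_abs_le (F x * q x)) m.1
      have b3 : 2 * (μ x * |q x|) ≤ μ x / γ + γ * q x ^ 2 := by
        rw [div_add' _ _ _ g0.ne', le_div_iff₀ g0, ← sq_abs]
        nlinarith [sq_nonneg (μ x - γ * |q x|)]
      linarith
  simp only [expect_add_distrib, ← mul_expect, ← expect_div, h1] at a2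
  have a3 := hyper _ _ _ hq
  rw [h1, one_pow, mul_one] at a3
  have a4 : C * ((𝔼 x, q x ^ 4) / τ ^ 2) ≤ 1 / 2 := by
    rw [t1, ← mul_div_assoc, div_le_iff₀ (by positivity)]
    nlinarith [mul_le_mul_of_nonneg_left a3 c0.le]
  have a5 := (div_le_iff₀ g0).2 (h6.trans_eq (sq γ))
  have a6 := mul_le_mul_of_nonneg_left (add_le_add a1 a5) (mul_pos c0 t0).le
  nlinarith [mul_le_mul_of_nonneg_left a2 c0.le]
end

variable (U : Ultrafilter ℕ) {n : ℕ → ℕ} (μ : ∀ k, (Fin (n k + 1) → Bool) → ℝ)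

def Bs {κ : Type} [Fintype κ] [DecidableEq κ] (g : ∀ k, κ → Fin (n k + 1)) : Set (κ → Bool) :=
  {y | ∃ θ, 0 < θ ∧ ∀ᶠ k in U, θ ≤ mass (μ k) (g k) y}

theorem stable {W : ℕ → ℕ → ℝ} (h : ∀ k D, 0 ≤ W k D ∧ W k D ≤ 1) {η : ℝ} (h0 : 0 < η) :
    ∃ D, ∀ E, ∀ᶠ k in U, W k E - W k D ≤ η := by
  by_contra c
  simp only [not_exists, not_forall, ← Ultrafilter.eventually_not] at c
  have : ∀ N : ℕ, ∃ D, ∀ᶠ k in U, N * η ≤ W k D := fun N => by
    induction N with
    | zero => exact ⟨0, .of_forall fun k => by simpa using (h k 0).1⟩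
    | succ N ih =>
      obtain ⟨D, a⟩ := ih
      obtain ⟨E, b⟩ := c D
      exact ⟨E, (a.and b).mono fun k z => by push_cast; linarith [z.1, not_le.1 z.2]⟩
  obtain ⟨N, hN⟩ := exists_nat_gt (1 / η)
  obtain ⟨D, a⟩ := this N
  obtain ⟨k, a⟩ := a.exists
  linarith [(div_lt_iff₀ h0).1 hN, (h k D).2]

theorem main (hμ : ∀ k x, 0 ≤ μ k x ∧ μ k x ≤ 1) (d : ℕ) : ∃ (κ : Type) (_ : Fintype κ) (_ : DecidableEq κ)
    (g : ∀ k, κ → Fin (n k + 1)) (C : ℝ), 0 < C ∧ ∀ᶠ k in U, ∀ q ∈ P (Fin (n k + 1)) d,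
      Orth d {x | x ∘ g k ∈ Bs U μ g} q → 𝔼 x, q x ^ 2 ≤ C * 𝔼 x, μ k x * q x ^ 2 := by
  induction d with
  | zero =>
    refine ⟨Empty, inferInstance, inferInstance, fun _ => Empty.elim, 1, one_pos, .of_forall fun k q hq _ => ?_⟩
    obtain rfl : q = fun _ => 0 := PJ_ind hq rfl (by rintro _ _ rfl rfl; simp) (by rintro _ _ rfl; simp) (by simp)
    simp
  | succ d ih =>
    obtain ⟨κ, _, _, g, C, c0, ih⟩ := ih
    have h1 : ∀ k, ∑ S, co (μ k) S ^ 2 ≤ 1 := fun k => by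
      rw [parseval]
      exact expect_le univ_nonempty fun x _ => mul_le_one₀ (hμ k x).2 (hμ k x).1 (hμ k x).2
    set a : ℝ := 1 / C / (2 * 3 ^ (2 * d + 1)) with ha
    have a0 : 0 < a := by positivity
    have e0 : 0 < a ^ 2 / 8 := by positivity
    obtain ⟨D, hD⟩ := stable U (W := fun k D => ∑ T with T.card ≤ D, co (μ k) T ^ 2) (fun k D => ⟨by positivity,
      (sum_le_sum_of_subset_of_nonneg (subset_univ _) fun _ _ _ => sq_nonneg _).trans (h1 k)⟩) e0
    obtain ⟨K, hK⟩ := exists_nat_ge (D / (a ^ 2 / 8))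
    rw [div_le_iff₀ e0] at hK
    choose e he using fun k => heavy (h1 k) e0 hK
    let m := K + 4 * d + 1
    have m0 : (0 : ℝ) < m := by positivity
    obtain ⟨L, hL⟩ := exists_pow_lt_of_lt_one (show 0 < a ^ 2 / 8 / 4 ^ d by positivity)
      (show 1 - 1 / (2 * (m : ℝ)) < 1 from sub_lt_self _ (by positivity))
    let g' : ∀ k, κ ⊕ Fin K → Fin (n k + 1) := fun k => Sum.elim (g k) (e k)
    obtain ⟨θ, h2, h3⟩ : ∃ θ, (∀ y, y ∈ Bs U μ g' → ∀ᶠ k in U, θ ≤ mass (μ k) (g' k) y) ∧ 0 < θ := by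
      refine (Eventually.and (f := 𝓝[>] 0) (eventually_all.2 fun y => ?_) self_mem_nhdsWithin).exists
      by_cases c : y ∈ Bs U μ g'
      · obtain ⟨θ, p, c⟩ := c
        exact ((ge_mem_nhds p).filter_mono nhdsWithin_le_nhds).mono fun _ a _ => c.mono fun _ => le_trans a
      · simp [c]
    obtain ⟨C', c1, hC⟩ := step (κ ⊕ Fin K) (d + 1) (Bs U μ g') h3 (show 0 ≤ 8 * m * C by positivity)
    refine ⟨κ ⊕ Fin K, inferInstance, inferInstance, g', C', c1, ?_⟩
    filter_upwards [ih, hD (Fintype.card (κ ⊕ Fin K) + 1 + (L + D)),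
      eventually_all.2 fun y => (eventually_imp_distrib_left).2 (h2 y)] with k ih b1 b2 q hq ho
    refine hC _ _ _ _ (hμ k) hq b2 ho ?_
    have := tail (m := m) (fun x => (hμ k x).1) hq (univ.image (g' k)) (κ := 1 / C) a0 (by rw [ha]; field_simp)
      (by omega) (fun i hi => (ex_lam (D := D) (L := L + D) (by omega) _ (h1 k) _ i).trans
        (mul_le_mul_of_nonneg_left ?_ (by positivity))) fun R hR i hi => ?_
    · rwa [div_div, one_div, inv_mul_le_iff₀ (by positivity), mul_comm C] at this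
    · have b3 := he k i fun z => hi (by
        obtain ⟨j, -, rfl⟩ := mem_image.1 z
        exact mem_image_of_mem (g' k) (mem_univ (.inr j)))
      have b4 : ∑ T with T.card ≤ (univ.image (g' k)).card + 1 + (L + D), co (μ k) T ^ 2 ≤
          ∑ T with T.card ≤ Fintype.card (κ ⊕ Fin K) + 1 + (L + D), co (μ k) T ^ 2 :=
        sum_le_sum_of_subset_of_nonneg (monotone_filter_right _ fun T _ z => by
          have := card_image_le (s := univ) (f := g' k); rw [card_univ] at this; omega) fun _ _ _ => sq_nonneg _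
      have b5 : (D : ℝ) / m ≤ a ^ 2 / 8 := by
        rw [div_le_iff₀ m0, mul_comm]
        exact hK.trans (mul_le_mul_of_nonneg_right (by exact_mod_cast (by omega)) e0.le)
      have b6 : (1 - 1 / (2 * (m : ℝ))) ^ (L + D) ≤ (1 - 1 / (2 * (m : ℝ))) ^ L :=
        pow_le_pow_of_le_one (sub_nonneg.2 ((div_le_one (by positivity)).2 (by exact_mod_cast (by omega))))
          (sub_le_self _ (by positivity)) (by omega)
      have b7 := (lt_div_iff₀' (by positivity)).1 (b6.trans_lt hL)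
      linarith
    · rw [one_div, inv_mul_le_iff₀ c0]
      refine ih _ (uT_mem R {i} hq) (orth_uT ho hi fun x hx y => ?_)
      obtain ⟨θ, p, hx⟩ := hx
      refine ⟨θ, p, hx.mono fun j z => z.trans (expect_le_expect fun w _ => ?_)⟩
      split_ifs with c1 c2
      · rfl
      · refine (c2 (funext fun o => (congrFun c1 (.inl o)).trans (piecewise_eq_of_notMem R y x (i := g k o) fun z => ?_).symm)).elim
        exact disjoint_left.1 hR z (mem_image_of_mem (g' k) (mem_univ (Sum.inl o)))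
      · exact (hμ _ _).1
      · rfl

theorem chow (d : ℕ) {δ : ℝ} (hδ : 0 < δ) : ∃ c, 0 < c ∧ ∀ n, ∀ p ∈ P (Fin (n + 1)) (d + 1), ∀ μ : (Fin (n + 1) → Bool) → ℝ,
    (∀ x, 0 ≤ μ x ∧ μ x ≤ 1) → δ ≤ 𝔼 x, μ x →
    c ≤ ∑ S with S.card ≤ d, co (fun x => μ x * s (decide (0 < p x))) S ^ 2 := by
  classical
  by_contra c
  push Not at c
  choose n p hp μ hμ h1 h2 using fun k : ℕ => c (1 / (k + 1)) (by positivity)
  obtain ⟨κ, _, _, g, C, c0, h⟩ := main (hyperfilter ℕ) μ hμ (d + 1)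
  obtain ⟨γ, ⟨g1, g2⟩, g0⟩ : ∃ γ : ℝ, (6 * C * √(2 * C * 9 ^ (d + 1)) * γ < 1 ∧ γ ^ 2 < δ) ∧ 0 < γ :=
    (Eventually.and (f := 𝓝[>] 0) (.filter_mono nhdsWithin_le_nhds (.and
      (Continuous.continuousAt (by fun_prop) |>.eventually_lt continuousAt_const (by simp))
      (Continuous.continuousAt (by fun_prop) |>.eventually_lt continuousAt_const (by simpa)))) self_mem_nhdsWithin).exists
  have N0 : (0 : ℝ) < Fintype.card (κ → Bool) := by exact_mod_cast Fintype.card_pos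
  have a1 : ∀ᶠ k in hyperfilter ℕ, ∀ y, y ∉ Bs (hyperfilter ℕ) μ g → mass (μ k) (g k) y ≤ γ ^ 2 / Fintype.card (κ → Bool) :=
    eventually_all.2 fun y => eventually_imp_distrib_left.2 fun z =>
      (Ultrafilter.eventually_not.2 fun w => z ⟨_, by positivity, w⟩).mono fun _ w => (not_le.1 w).le
  have a2 : ∀ᶠ k : ℕ in hyperfilter ℕ, (1 / (k + 1) : ℝ) < γ ^ 2 :=
    (tendsto_one_div_add_atTop_nhds_zero_nat.eventually (gt_mem_nhds (by positivity))).filter_mono
      Nat.hyperfilter_le_atTop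
  obtain ⟨k, h, a1, a2⟩ := (h.and (a1.and a2)).exists
  set A := {x | x ∘ g k ∈ Bs (hyperfilter ℕ) μ g}
  have b1 : (𝔼 x, if x ∈ A then 0 else μ k x) ≤ γ ^ 2 := by
    refine le_trans (le_of_eq ?_) ((sum_le_card_nsmul univ (fun y => if y ∈ Bs (hyperfilter ℕ) μ g then 0 else
      mass (μ k) (g k) y) (γ ^ 2 / Fintype.card (κ → Bool)) fun y _ => ?_).trans_eq ?_)
    · have : ∀ y, (if y ∈ Bs (hyperfilter ℕ) μ g then 0 else mass (μ k) (g k) y) =
          𝔼 x, if x ∘ g k = y then (if x ∈ A then 0 else μ k x) else 0 := fun y => by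
        split_ifs with c
        · exact (expect_eq_zero fun x _ => by split_ifs with a b <;> simp_all [A]).symm
        · exact expect_congr rfl fun x _ => by split_ifs with a b <;> simp_all [A]
      simp [this, ← expect_sum_comm]
    · split_ifs with c
      · positivity
      · exact a1 y c
    · rw [nsmul_eq_mul, card_univ, mul_div_cancel₀ _ N0.ne']
  obtain ⟨η, h3, h4⟩ : ∃ η, (∀ x, 0 < p k x → η < p k x) ∧ 0 < η :=
    (Eventually.and (f := 𝓝[>] 0) (eventually_all.2 fun x => eventually_imp_distrib_left.2 fun z =>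
      (gt_mem_nhds z).filter_mono nhdsWithin_le_nhds) self_mem_nhdsWithin).exists
  have h5 : ∀ x, 0 < s (decide (0 < p k x)) * (p k x - η) := fun x => by
    by_cases e : 0 < p k x
    · simp [e, s, h3]
    · simp [e, s]; linarith
  obtain ⟨v, ⟨v1, v2⟩, hv⟩ := proj (P _ (d + 1) ⊓ Submodule.pi A fun _ => ⊥) fun x => p k x - η
  set q := fun x => p k x - η - v x
  have hq : q ∈ P _ (d + 1) := by
    have := sub_mem (sub_mem (hp k) (Submodule.smul_mem _ η (χ_mem (S := ∅) (subset_univ _) d.succ_pos))) v1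
    rwa [show p k - η • χ ∅ - v = q from funext fun x => by simp [q, χ]] at this
  have b2 : ∀ x ∈ A, 0 < s (decide (0 < p k x)) * q x := fun x hx => by
    simpa only [q, show v x = 0 from v2 x hx, sub_zero] using h5 x
  obtain ⟨x, hx⟩ : ∃ x, x ∈ A := by
    by_contra z
    push Not at z
    simp only [z, if_false] at b1
    linarith [h1 k]
  have b3 : 0 < 𝔼 x, q x ^ 2 := by
    rw [expect_eq_sum_div_card]
    exact div_pos (sum_pos' (fun _ _ => sq_nonneg _) ⟨x, mem_univ _, sq_pos_iff.2 (right_ne_zero_of_mul (b2 x hx).ne')⟩)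
      (by exact_mod_cast card_pos.2 univ_nonempty)
  have b4 := h q hq fun w a b => hv w ⟨a, b⟩
  set σ := √(𝔼 x, q x ^ 2)
  have s0 : 0 < σ := Real.sqrt_pos.2 b3
  have s1 : σ ^ 2 = 𝔼 x, q x ^ 2 := Real.sq_sqrt b3.le
  refine g1.not_ge (fin (q := fun x => σ⁻¹ * q x) g0 c0 (hμ k) (Submodule.smul_mem _ σ⁻¹ hq) ?_ ?_ (fun _ => abs_s _)
    (fun x hx => ?_) ((h2 k).trans a2).le b1)
  · simp only [mul_pow, ← mul_expect, ← s1]; field_simp
  · simp only [mul_pow, mul_left_comm _ (σ⁻¹ ^ 2), ← mul_expect]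
    rwa [inv_pow, le_inv_mul_iff₀ (by positivity), mul_one, s1]
  · rw [mul_left_comm]; exact mul_nonneg (by positivity) (b2 x hx).le

end Pool.Agent.H.MP_375aa5_lc
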