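import Pool.Agent.H.MP_375aa5_lc.C

set_option autoImplicit false

namespace Pool.Agent.H.MP_375aa5_lc

open Finset Pool.Agent.H.MP_cd40e2_lc
open scoped BigOperators

variable {ι : Type} [Fintype ι] [DecidableEq ι]

theorem dual {d : ℕ} {ε : ℝ} (f : (ι → Bool) → Bool)
    (h : ∀ p ∈ P ι (d + 1), ε ≤ 𝔼 x, if f x ≠ decide (0 < p x) then (1 : ℝ) else 0) :
    ∃ μ : (ι → Bool) → ℝ, (∀ x, 0 ≤ μ x ∧ μ x ≤ 1) ∧ ε ≤ 𝔼 x, μ x ∧
      ∀ S : Finset ι, S.card ≤ d → co (fun x => μ x * s (f x)) S = 0 := by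
  let T : ((ι → Bool) → ℝ) →ₗ[ℝ] Finset ι → ℝ :=
    { toFun μ S := 𝔼 x, μ x * s (f x) * if S.card ≤ d then χ S x else 0
      map_add' _ _ := by ext; simp only [Pi.add_apply, add_mul, expect_add_distrib]
      map_smul' _ _ := by ext; simp only [Pi.smul_apply, smul_eq_mul, mul_assoc, mul_expect, RingHom.id_apply] }
  let E : ((ι → Bool) → ℝ) →ₗ[ℝ] ℝ :=
    { toFun μ := 𝔼 x, μ x
      map_add' _ _ := by simp [expect_add_distrib]
      map_smul' _ _ := by simp [mul_expect] }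
  let K : Set ((ι → Bool) → ℝ) := Set.Icc 0 1 ∩ E ⁻¹' Set.Ici ε
  by_contra n
  obtain ⟨φ, u, h1, h2⟩ := geometric_hahn_banach_point_closed (x := 0) (t := T '' K)
    (((convex_Icc _ _).inter ((convex_Ici _).linear_preimage E)).linear_image T)
    ((isCompact_Icc.inter_right (isClosed_Ici.preimage E.continuous_of_finiteDimensional)).image
      T.continuous_of_finiteDimensional).isClosed fun ⟨μ, a, b⟩ => n ⟨μ, fun x => ⟨a.1.1 x, a.1.2 x⟩, a.2,
        fun S c => by simpa [T, c, co] using congrFun b S⟩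
  let p : (ι → Bool) → ℝ := fun x => ∑ S, (if S.card ≤ d then φ (Pi.single S 1) else 0) * χ S x
  have := h2 _ ⟨fun x => if f x ≠ decide (0 < p x) then (1 : ℝ) else 0,
    ⟨⟨fun x => by dsimp; split_ifs <;> simp, fun x => by dsimp; split_ifs <;> simp⟩,
      h p (mem_PJ.2 fun S z => by rw [co_sum, if_neg fun c => z ⟨subset_univ _, by omega⟩])⟩, rfl⟩
  have e : ∀ z : Finset ι → ℝ, φ z = ∑ o, z o * φ (Pi.single o 1) := fun z => by
    conv_lhs => rw [← univ_sum_single z, map_sum]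
    exact sum_congr rfl fun o _ => by rw [← smul_eq_mul, ← map_smul, ← Pi.single_smul, smul_eq_mul, mul_one]
  rw [map_zero] at h1
  rw [e] at this
  simp only [T, LinearMap.coe_mk, AddHom.coe_mk, expect_mul, ← expect_sum_comm, mul_assoc, ← mul_sum] at this
  refine (h1.trans this).not_ge (expect_le univ_nonempty fun x _ => ?_)
  rw [show ∑ S, (if S.card ≤ d then χ S x else 0) * φ (Pi.single S 1) = p x from
    sum_congr rfl fun S _ => by split_ifs <;> ring]
  by_cases c : 0 < p x <;> cases f x <;> simp [c, s]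
  · exact c.le
  · exact not_lt.1 c

theorem mom {k : ℕ} (hk : 0 < k) (e j : ℕ) (hj : e ≤ j) :
    𝔼 t : Fin (k ^ 2) → Bool, ((𝔼 b, s (t b)) ^ j) ^ 2 ≤ 6 * (2 * e).factorial / k ^ (2 * e) := by
  have k1 : (1 : ℝ) ≤ k := by exact_mod_cast hk
  have a : ∀ σ : ℝ, σ ^ 2 = 1 → 𝔼 t : Fin (k ^ 2) → Bool, Real.exp (σ * (∑ b, s (t b)) / k) ≤ 3 := fun σ hσ => by
    simp only [mul_sum, sum_div, Real.exp_sum]
    rw [ex_prod fun _ b => Real.exp (σ * s b / k), prod_const, ex_bool]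
    have := Real.cosh_le_exp_half_sq (σ / k)
    rw [Real.cosh_eq] at this
    simp only [s, if_true, mul_one, Bool.false_eq_true, if_false, mul_neg, neg_div, card_univ, Fintype.card_fin]
    refine (pow_le_pow_left₀ (by positivity) this _).trans ?_
    rw [← Real.exp_nat_mul, div_pow, hσ]
    refine (Real.exp_le_exp.2 (le_of_le_of_eq ?_ rfl)).trans (Real.exp_one_lt_d9.le.trans (by norm_num))
    push_cast; field_simp; norm_num
  have b : ∀ t : Fin (k ^ 2) → Bool, ((𝔼 b, s (t b)) ^ j) ^ 2 ≤ (2 * e).factorial / k ^ (2 * e) *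
      (Real.exp (1 * (∑ b, s (t b)) / k) + Real.exp (-1 * (∑ b, s (t b)) / k)) := fun t => by
    have z1 : |∑ b, s (t b)| ≤ k ^ 2 := (abs_sum_le_sum_abs _ _).trans (by simp)
    rw [expect_eq_sum_div_card]
    simp only [card_univ, Fintype.card_fin, Nat.cast_pow]
    generalize ∑ b, s (t b) = z at *
    have z2 : Real.exp (|z| / k) ≤ Real.exp (1 * z / k) + Real.exp (-1 * z / k) := by
      rcases abs_choice z with e | e <;> rw [e] <;> simp [Real.exp_nonneg]
    have z3 := Real.pow_div_factorial_le_exp _ (show 0 ≤ |z| / k by positivity) (2 * e)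
    refine le_trans ?_ (mul_le_mul_of_nonneg_left (z3.trans z2) (by positivity))
    rw [← sq_abs, abs_pow, abs_div, abs_of_nonneg (show 0 ≤ (k : ℝ) ^ 2 by positivity), ← pow_mul]
    refine (pow_le_pow_of_le_one (by positivity) ((div_le_one (by positivity)).2 z1) (show 2 * e ≤ _ by omega)).trans_eq ?_
    rw [sq, ← div_div, div_pow]
    field_simp
  refine (expect_le_expect fun t _ => b t).trans ?_
  rw [← mul_expect, expect_add_distrib]
  refine (mul_le_mul_of_nonneg_left (add_le_add (a 1 (by simp)) (a (-1) (by simp))) (by positivity)).trans_eq (by ring)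

theorem ker {k : ℕ} (hk : 0 < k) (d j : ℕ) (hj : d < j) : 𝔼 t : Fin (k ^ 2) → Bool,
    (∑ T with T.card ≤ d, χ T t) * (𝔼 b, s (t b)) ^ j ≤ √(6 * (d + 1) * (2 * (d + 1)).factorial) / k := by
  refine le_of_sq_le_sq ((expect_mul_sq_le_sq_mul_sq _ _ _).trans ?_) (by positivity)
  have a : 𝔼 t : Fin (k ^ 2) → Bool, (∑ T with T.card ≤ d, χ T t) ^ 2 ≤ (d + 1) * k ^ (2 * d) := by
    have e : ∀ t : Fin (k ^ 2) → Bool, ∑ T with T.card ≤ d, χ T t = ∑ T, (if T.card ≤ d then 1 else 0) * χ T t :=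
      fun t => by simp [sum_filter]
    simp only [e, pars, co_sum, ite_pow, one_pow, ne_eq, two_ne_zero, not_false_eq_true, zero_pow, sum_boole]
    norm_cast
    refine (card_le_card (t := (range (d + 1)).biUnion fun i => powersetCard i univ) fun T => ?_).trans
      (card_biUnion_le.trans ((sum_le_card_nsmul _ _ (k ^ (2 * d)) fun i hi => ?_).trans_eq (by simp)))
    · simp [Nat.lt_succ_iff]
    · rw [card_powersetCard, card_univ, Fintype.card_fin, pow_mul]
      exact (Nat.choose_le_pow _ _).trans (Nat.pow_le_pow_right (by positivity) (by simpa [Nat.lt_succ_iff] using hi))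
  refine (mul_le_mul a (mom hk (d + 1) j hj) (expect_nonneg fun _ _ => sq_nonneg _) (by positivity)).trans_eq ?_
  rw [div_pow, Real.sq_sqrt (by positivity)]
  field_simp
  ring

theorem hash {k d : ℕ} (hk : 0 < k) (g : (ι → Bool) → ℝ) (h1 : ∀ x, g x * g x ≤ 1) (h2 : ∀ S, S.card ≤ d → co g S = 0) :
    𝔼 ω : (ι → Fin (k ^ 2)) × (ι → Bool), ∑ T with T.card ≤ d, co (fun t => g (pnt ω t)) T ^ 2 ≤
      √(6 * (d + 1) * (2 * (d + 1)).factorial) / k := by
  have : Nonempty (Fin (k ^ 2)) := ⟨⟨0, by positivity⟩⟩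
  have e : ∀ G : (Fin (k ^ 2) → Bool) → ℝ, ∑ T with T.card ≤ d, co G T ^ 2 =
      𝔼 t, 𝔼 t' : Fin (k ^ 2) → Bool, (∑ T with T.card ≤ d, χ T t') * (G t * G fun b => t b == t' b) := fun G => by
    simp only [co, sq, Fintype.expect_mul_expect, ← expect_sum_comm]
    refine expect_congr rfl fun t _ => ?_
    rw [← ex_shift t]
    refine expect_congr rfl fun t' _ => ?_
    simp only [sum_mul]
    refine sum_congr rfl fun T _ => ?_
    have : χ T t * χ T (fun b => t b == t' b) = χ T t' := by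
      simp only [χ, ← prod_mul_distrib, s_beq, ← mul_assoc, s_sq, one_mul]
    rw [← this]; ring
  simp only [e]
  rw [expect_comm]
  refine expect_le univ_nonempty fun t _ => ?_
  rw [expect_comm]
  have e2 : ∀ t' : Fin (k ^ 2) → Bool, 𝔼 ω : (ι → Fin (k ^ 2)) × (ι → Bool), g (pnt ω t) * g (pnt ω fun b => t b == t' b) =
      ∑ S, co g S ^ 2 * (𝔼 b, s (t' b)) ^ S.card := fun t' => by
    rw [← stab, ← univ_product_univ, expect_product]
    refine expect_congr rfl fun h _ => ?_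
    rw [← ex_shift (fun i => t (h i)) fun x => g x * g fun i => t' (h i) == x i]
    refine expect_congr rfl fun x _ => congrArg _ (congrArg _ (funext fun i => ?_))
    simp only [pnt]
    cases t (h i) <;> cases t' (h i) <;> simp
  simp only [← mul_expect, e2, mul_sum, expect_sum_comm, mul_left_comm _ (co g _ ^ 2)]
  refine (sum_le_sum (g := fun S => co g S ^ 2 * (√(6 * (d + 1) * (2 * (d + 1)).factorial) / k)) fun S _ => ?_).trans ?_
  · by_cases c : d < S.card
    · exact mul_le_mul_of_nonneg_left (ker hk d _ c) (sq_nonneg _)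
    · simp [h2 S (not_lt.1 c)]
  · rw [← sum_mul, parseval]
    exact mul_le_of_le_one_left (by positivity) (expect_le univ_nonempty fun x _ => h1 x)

open Classical in
theorem round (d : ℕ) {ε : ℝ} (hε : 0 < ε) : ∃ m, 0 < m ∧ ∀ (ι : Type) [Fintype ι] [DecidableEq ι] (f : (ι → Bool) → Bool),
    (∀ p ∈ P ι (d + 1), ε ≤ 𝔼 x, if f x ≠ decide (0 < p x) then (1 : ℝ) else 0) →
    𝔼 ω : (ι → Fin m) × (ι → Bool),
      (if ∃ p ∈ P (Fin m) (d + 1), ∀ t, f (pnt ω t) = decide (0 < p t) then (1 : ℝ) else 0) ≤ 1 - ε / 4 := by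
  obtain ⟨c, c0, hc⟩ := chow d (half_pos hε)
  have hc' : ∀ m, 0 < m → ∀ p ∈ P (Fin m) (d + 1), ∀ μ : (Fin m → Bool) → ℝ, (∀ x, 0 ≤ μ x ∧ μ x ≤ 1) → ε / 2 ≤ 𝔼 x, μ x →
      c ≤ ∑ S with S.card ≤ d, co (fun x => μ x * s (decide (0 < p x))) S ^ 2 := fun m hm => by
    obtain ⟨n, rfl⟩ := Nat.exists_eq_succ_of_ne_zero hm.ne'
    exact hc n
  set M : ℝ := √(6 * (d + 1) * (2 * (d + 1)).factorial)
  obtain ⟨k, hk⟩ := exists_nat_gt (4 * M / (ε * c))
  have k0 : (0 : ℝ) < k := lt_of_le_of_lt (by positivity) hk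
  have k1 : 0 < k := by exact_mod_cast k0
  refine ⟨k ^ 2, by positivity, fun ι _ _ f hf => ?_⟩
  have : Nonempty (Fin (k ^ 2)) := ⟨⟨0, by positivity⟩⟩
  obtain ⟨μ, h1, h2, h3⟩ := dual f hf
  have a := hash k1 (fun x => μ x * s (f x)) (fun x => by
    rw [mul_mul_mul_comm, s_sq, mul_one]; exact mul_le_one₀ (h1 x).2 (h1 x).1 (h1 x).2) h3
  have b : 𝔼 ω : (ι → Fin (k ^ 2)) × (ι → Bool), 𝔼 t, μ (pnt ω t) = 𝔼 x, μ x := by
    rw [expect_comm, ← Fintype.expect_const (ι := Fin (k ^ 2) → Bool) (𝔼 x, μ x)]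
    refine expect_congr rfl fun t _ => ?_
    rw [← univ_product_univ, expect_product, ← Fintype.expect_const (ι := ι → Fin (k ^ 2)) (𝔼 x, μ x)]
    exact expect_congr rfl fun h _ => ex_shift (fun i => t (h i)) μ
  refine (expect_le_expect (g := fun ω => 1 + ε / 2 - 𝔼 t, μ (pnt ω t) +
    (∑ T with T.card ≤ d, co (fun t => μ (pnt ω t) * s (f (pnt ω t))) T ^ 2) / c) fun ω _ => ?_).trans ?_
  · have p : 0 ≤ (∑ T with T.card ≤ d, co (fun t => μ (pnt ω t) * s (f (pnt ω t))) T ^ 2) / c := by positivity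
    have q : 𝔼 t, μ (pnt ω t) ≤ 1 := expect_le univ_nonempty fun x _ => (h1 _).2
    split_ifs with e
    swap
    · linarith
    obtain ⟨w, hw, e⟩ := e
    by_cases n : ε / 2 ≤ 𝔼 t, μ (pnt ω t)
    swap
    · linarith
    have := hc' _ (by positivity) w hw _ (fun t => h1 (pnt ω t)) n
    simp only [← e] at this
    have := (one_le_div c0).2 this
    linarith
  · rw [expect_add_distrib, expect_sub_distrib, ← expect_div, b, Fintype.expect_const]
    have : M / k / c ≤ ε / 4 := by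
      rw [div_lt_iff₀ (by positivity)] at hk
      rw [div_div, div_le_iff₀ (by positivity)]
      nlinarith
    linarith [div_le_div_of_nonneg_right a c0.le]

theorem pnt_mem {κ : Type} [Fintype κ] [DecidableEq κ] (ω : (ι → κ) × (ι → Bool)) {d p} (h : p ∈ P ι d) :
    (fun t => p (pnt ω t)) ∈ P κ d :=
  PJ_map (fun p t => p (pnt ω t)) (fun _ _ => rfl) (fun _ _ => rfl) (fun S _ c => by
    simp only [χ, pnt, s_beq, prod_mul_distrib, mul_comm _ (∏ i ∈ S, s (ω.2 i))]
    exact Submodule.smul_mem _ _ (prod_mem_P S ω.1 c)) h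

theorem poly_iff {d : ℕ} {f : (ι → Bool) → Bool} : (∃ p : MvPolynomial ι ℝ, p.totalDegree ≤ d ∧
    ∀ x, f x = decide (0 < MvPolynomial.eval (fun i => s (x i)) p)) ↔ ∃ p ∈ P ι (d + 1), ∀ x, f x = decide (0 < p x) := by
  refine ⟨fun ⟨p, a, b⟩ => ⟨_, ?_, b⟩, fun ⟨q, a, b⟩ => ?_⟩
  · simp only [MvPolynomial.eval_eq']
    rw [← sum_fn]
    refine Submodule.sum_mem _ fun m hm => Submodule.smul_mem _ _ ?_
    have := prod_mem_P (d := d + 1) (univ : Finset (Σ i, Fin (m i))) (fun j => j.1) (by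
      have := (MvPolynomial.le_totalDegree hm).trans a
      rw [Finsupp.sum_fintype _ _ fun _ => rfl] at this
      simpa [Nat.lt_succ_iff] using this)
    simpa [Fintype.prod_sigma] using this
  · obtain ⟨p, c, rfl⟩ : ∃ p : MvPolynomial ι ℝ, p.totalDegree ≤ d ∧ q = fun x => MvPolynomial.eval (fun i => s (x i)) p := by
      refine PJ_ind a ⟨0, by simp, by simp⟩ ?_ ?_ fun S _ c => ⟨∏ i ∈ S, .X i, ?_, funext fun x => by simp [χ]⟩
      · rintro _ _ ⟨a, ha, rfl⟩ ⟨b, hb, rfl⟩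
        exact ⟨a + b, (MvPolynomial.totalDegree_add _ _).trans (max_le ha hb), by simp⟩
      · rintro c _ ⟨a, ha, rfl⟩
        exact ⟨c • a, (MvPolynomial.totalDegree_smul_le _ _).trans ha, by simp⟩
      · exact (MvPolynomial.totalDegree_finset_prod _ _).trans (by simp; omega)
    exact ⟨p, c, b⟩

end Pool.Agent.H.MP_375aa5_lc
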